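import Pool.Agent.V7H64.FS.Null
import Pool.Agent.V7H64.FS.Reg
import Pool.Agent.V7H64.FS.Unram
set_option autoImplicit false

/-!
Beilinson's conjecture on regulators in weight `dim X + 1`, for `i = dim X`: on the varieties
`W_e(z) = λ F_e(x)`, `0 ≤ e ≤ d + 1`, in the product of a torus and of the affine space with the
coordinates `x_0, ..., x_d`, where the leading forms of the `F_e` have the sum `0` and no common
zero: the symbol `{z_0, ..., z_N}` of all coordinates of the torus is unramified for all `λ` divisible
by a power of a resultant, and its regulator is asymptotic to a nonzero multiple of `log |λ|`.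
-/

namespace Pool.Agent.Results.MP_a09a03_nt.BalancedSystemsH64

open Pool.Agent.V7H64.FS

/-- Let `σ` be a complex embedding of the number field `K`. The system `F` consists of polynomials
`F_e = P_e + q_e` in `x_0, ..., x_d` and of Laurent polynomials `W_e` in `z_0, ..., z_N`, for
`0 ≤ e ≤ d + 1`, whose coefficients are algebraic integers of `K`, such that (`Balanced`)

* the `P_e` are weighted homogeneous of weight `n` for positive weights of the variables `x_j`, the
  monomials of the `q_e` have smaller weights, `∑_e P_e = 0`, and the `P_e` have no common complex
  zero (over `σ`) besides the origin,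
* the Newton polytopes of the `W_e` are contained in the Newton polytope of the sum `W = ∑_e W_e`,
  the origin is an interior point of it, and the face polynomials of `W` in all directions `a ≠ 0`
  (`face`) divide products of polynomials `∑_i ε_i z^{m_i}` with affinely independent exponents and
  roots of unity `ε_i`, with quotients with integral coefficients (`Tame`),
* there are a vertex `v` of the Newton polytope of `W`, a number `τ ≠ 0` and a point `p` with
  `F_e(p) = τ w_{e,v}` for all `e`, where `w_{e,v}` is the coefficient of `z^v` of `W_e`, such that
  the matrix with the columns `w_v`, `∂F/∂x_0(p)`, ..., `∂F/∂x_d(p)` is invertible (`Vertex`).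

For example the `W_e` can be Laurent polynomials in separate variables with the origin in the
interior of the Newton polytope and face polynomials of simplex type; then the variety is a fibre
product of `d + 2` fibrations over the affine space, and the condition on `v`, `τ`, `p` means that
`d + 1` of the `F_e` have a transversal common zero at which the other one does not vanish.

There are algebraic integers `R ≠ 0` in `K` such that for all `j` some `R x_j ^ N` is a combination
of the `P_e` with integral coefficients (`Res`); for all such `R`, all algebraic integers `μ` and
`λ = μ R ^ n` the symbol `{z_0, ..., z_N}` on the variety `W_e(z) = λ F_e(x)`, `0 ≤ e ≤ d + 1`,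
`z_i ≠ 0`, of dimension `N` has unramified images in the Milnor K-theory of all fields with a
homomorphism from the coordinate ring. There is a real number `q ≠ 0` such that for all `ε > 0` there
is a constant `C` such that for all `λ` in `K` with `|σ λ| ≥ C` there is a torus of dimension `N` in
the complex points (over `σ`) of the variety, such that the quotient of the regulator of the symbol
on the torus and of `log |σ λ|` differs from `q` by at most `ε`; in particular the regulator does not
vanish for large `|σ λ|`. -/
theorem result.{u, v} (N d : ℕ) (K : Type u) [Field K] [NumberField K] (σ : K →+* ℂ)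
    (F : Sys K N d (d + 1)) (hF : F.Balanced σ) :
    (∃ R, Res F.P R) ∧
    (∀ R mu : K, Res F.P R → IsIntegral ℤ mu → Sys.Unram.{u, v} F (mu * R ^ F.n)) ∧
    ∃ q : ℝ, q ≠ 0 ∧ ∀ ε : ℝ, 0 < ε → ∃ C : ℝ, ∀ lam : K, C ≤ ‖σ lam‖ →
      F.HasReg lam σ (Real.log ‖σ lam‖) q ε :=
  ⟨exists_res hF.infty, fun _ _ hR hmu _ _ f => unram hF hR hmu f, exists_reg σ hF.vertex⟩

end Pool.Agent.Results.MP_a09a03_nt.BalancedSystemsH64
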