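import Pool.Agent.V7H64.BR.Null
import Pool.Agent.V7H64.BR.Unram
import Pool.Agent.V7H64.BR.Card
set_option autoImplicit false

/-!
Beilinson's conjecture on regulators in weight `dim X + 1`, for `i = dim X`: on the hypersurfaces
`λ g ∏_e F_e ^ (w_e + 1) = 1`, where the `F_e` are arbitrary polynomials whose leading parts are
linear combinations of weighted homogeneous polynomials `P_0, ..., P_d` in `x_0, ..., x_d` without
common zeros besides the origin (arrangements of hypersurfaces which at infinity are pulled back from
arrangements of hyperplanes): unramified classes in Milnor K-theory with linearly independent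
regulators.
-/

namespace Pool.Agent.Results.MP_a09a03_nt.PulledBackArrangementsH64

open Pool.Agent.V7H64.BR

/-- Let `σ` be a complex embedding of the number field `K`. Let `x_0, ..., x_d` have positive weights
`a_j`, let `P_0, ..., P_d` be weighted homogeneous polynomials in `x_0, ..., x_d` over `K` with no
common zero over `σ` in `ℂ^{d+1}` besides the origin, and let `F_e = ∑_k c_{e,k} P_k + q_e ≠ 0`,
`0 ≤ e ≤ m`, where the `P_k` with `c_{e,k} ≠ 0` have the same weight `n_e` and the monomials of the
`q_e` have smaller weights. Let `w_e ≥ 0` be integers and `g` a polynomial. The coefficients of all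
these polynomials are algebraic integers.

Let `Ix` be the set of all `T_0 < ... < T_d` such that the determinant of `(c_{T_i,k})` is not zero,
every `T_i` can be replaced by a later index (with nonzero determinant), and every other `e`, such
that `F_e` is the combination of the `F_{T_i}` with the same coefficients as its leading part, can
replace a later index `T_i`. For every `T ∈ Ix` we suppose that there is a transversal common zero
(over `σ`) of the `F_{T_i}`, such that `g` and all `F_e`, which are not such combinations of the
`F_{T_i}`, do not vanish at it (`Admissible`). (If all determinants of `d + 1` different indices are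
not zero and no `F_e` is such a combination of `d + 1` other ones, then `Ix` has `binom(m, d + 1)`
elements.)

There are algebraic integers `R ≠ 0` of `K`, such that for all `j` some `R x_j ^ N` is a combination
of the `P_k` with integral coefficients. Let `R` be any of them, let `Δ` be the product of all
nonzero determinants of `(c_{T_i,k})`, and `B = (2 m + 4) (deg g + ∑_e (w_e + 1) n_e) + 1`. There is a
constant `C` such that for all algebraic integers `μ` of `K` and `λ = μ (R Δ) ^ B` with `|σ λ| ≥ C`
the following holds for the coordinate ring `A` of the hypersurface `λ g ∏_e F_e ^ (w_e + 1) = 1` of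
dimension `d`. (If `R` and all the determinants are zero or units, these are all large algebraic
integers `λ`.)

The hypersurface is smooth over `σ`. For all `T` with nonzero determinant the symbol
`{u_0, ..., u_d}`, `u_i = κ_i F_{T_i} / F_{h_i}`, where `h_i` is the largest index such that the
determinant of `T` with `T_i` replaced by `h_i` is not zero and `κ_i` is the quotient of this
determinant and of the one of `T`, has unramified images in the Milnor K-theory of all fields `L`
with a homomorphism `A → L`. There are tori `Γ_T`, `T ∈ Ix`, of dimension `d` in the complex points
(over `σ`) of the hypersurface, such that the determinant of the regulators of the symbols of the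
`T' ∈ Ix` on the `Γ_T` does not vanish. -/
theorem result.{u, v} (d m : ℕ) (K : Type u) [Field K] [NumberField K] (σ : K →+* ℂ)
    (F : Arr K d m) (hF : F.Admissible σ) :
    (F.General → Fintype.card F.Ix = m.choose (d + 1)) ∧ (∃ R, F.Res R) ∧
    ∀ R, F.Res R → ∃ C : ℝ, ∀ mu lam : K, IsIntegral ℤ mu →
      lam = mu * (R * F.Del) ^ F.Bex → C ≤ ‖σ lam‖ →
        F.Smooth lam σ ∧ Arr.Unram.{u, v} F lam ∧ F.Indep lam σ := by
  obtain ⟨C1, -, h1⟩ := exists_smooth F σ
  obtain ⟨C2, -, h2⟩ := exists_indep hF
  exact ⟨card_Ix, exists_res hF.infty, fun R hR => ⟨max C1 C2, fun mu lam hmu hlam hl =>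
    ⟨h1 lam ((le_max_left _ _).trans hl),
      fun L _ f T hT => sym_mem_unramified hF hR hmu hlam f hT,
      h2 lam ((le_max_right _ _).trans hl)⟩⟩⟩

end Pool.Agent.Results.MP_a09a03_nt.PulledBackArrangementsH64
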