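import Pool.Agent.V7H64.BR.Null
import Pool.Agent.V7H64.BR.Unram
import Pool.Agent.V7H64.BR.TorB
set_option autoImplicit false

/-!
Beilinson's conjecture on regulators in weight `dim X + 1`, for `i = dim X`: on the fibrations
`W(z) = λ g(x) ∏_e F_e(x) ^ (w_e + 1)`, where `W` is a Laurent polynomial in `z_0, ..., z_s` which
divides a product of Laurent polynomials of simplex type and has the origin in the interior of its
Newton polytope, and the `F_e` are arbitrary polynomials whose leading parts are linear combinations
of weighted homogeneous polynomials `P_0, ..., P_d` in `x_0, ..., x_d` without common zeros besides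
the origin: unramified classes in Milnor K-theory with linearly independent regulators.
-/

namespace Pool.Agent.Results.MP_a09a03_nt.PulledBackFibrationsH64

open Pool.Agent.V7H64.BR

open Pool.Agent.N65.TL (LP Interior Tame)

/-- Let `σ` be a complex embedding of the number field `K`, let `s ≥ 0` and let `W = ∑_m w_m z^m` be
a Laurent polynomial in `z_0, ..., z_s` over `K` such that

* the origin is an interior point of the Newton polytope (`Interior`), and
* `W Q = ∏_j G_j` for a Laurent polynomial `Q ≠ 0` with integral coefficients and polynomials
  `G_j = ∑_i ε_{j,i} z^{m_{j,i}}` of simplex type (`Tame`): the `ε_{j,i}` are roots of unity, and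
  for every `j` the exponents `m_{j,i}` are affinely independent.

Let `x_0, ..., x_d` have positive weights `a_j`, let `P_0, ..., P_d` be weighted homogeneous
polynomials in `x_0, ..., x_d` over `K` with no common zero over `σ` in `ℂ^{d+1}` besides the origin,
and let `F_e = ∑_k c_{e,k} P_k + q_e ≠ 0`, `0 ≤ e ≤ m`, where the `P_k` with `c_{e,k} ≠ 0` have the
same weight `n_e` and the monomials of the `q_e` have smaller weights. Let `w_e ≥ 0` be integers and
`g` a polynomial in `x_0, ..., x_d`. The coefficients of all these polynomials are algebraic integers.

Let `Ix` be the set of all `T_0 < ... < T_d` such that the determinant of `(c_{T_i,k})` is not zero,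
every `T_i` can be replaced by a later index (with nonzero determinant), and every other `e`, such
that `F_e` is the combination of the `F_{T_i}` with the same coefficients as its leading part, can
replace a later index `T_i`. For every `T ∈ Ix` we suppose that there is a transversal common zero
(over `σ`) of the `F_{T_i}`, such that `g` and all `F_e`, which are not such combinations of the
`F_{T_i}`, do not vanish at it (`Admissible`).

There are algebraic integers `R ≠ 0` of `K`, such that for all `j` some `R x_j ^ N` is a combination
of the `P_k` with integral coefficients. Let `R` be any of them, let `Δ` be the product of all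
nonzero determinants of `(c_{T_i,k})`, and `B = (2 m + 4) (deg g + ∑_e (w_e + 1) n_e) + 1`. There is a
constant `C` such that for all algebraic integers `μ` of `K` and `λ = μ (R Δ) ^ B` with `|σ λ| ≥ C`
the following holds for the coordinate ring `A` of the open part `Φ ≠ 0` of the hypersurface
`W(z) = Φ(x)`, `Φ = λ g ∏_e F_e ^ (w_e + 1)`, `z_i ≠ 0`, of dimension `s + d + 1`.

For all `T` with nonzero determinant the symbol `{z_0, ..., z_s, u_0, ..., u_d}`,
`u_i = κ_i F_{T_i} / F_{h_i}`, where `h_i` is the largest index such that the determinant of `T` with
`T_i` replaced by `h_i` is not zero and `κ_i` is the quotient of this determinant and of the one of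
`T`, has unramified images in the Milnor K-theory of all fields `L` with a homomorphism `A → L`.
There are tori `Γ_T`, `T ∈ Ix`, of dimension `s + d + 1` in the complex points (over `σ`) of the open
part, such that the determinant of the regulators of the symbols of the `T' ∈ Ix` on the `Γ_T` does
not vanish. -/
theorem result.{u, v} (s d m : ℕ) (K : Type u) [Field K] [NumberField K] (σ : K →+* ℂ)
    (W : LP K (s + 1)) (hWint : Interior W) (hWt : Tame W) (F : Arr K d m)
    (hF : F.Admissible σ) :
    (∃ R, F.Res R) ∧
    ∀ R, F.Res R → ∃ C : ℝ, ∀ mu lam : K, IsIntegral ℤ mu →
      lam = mu * (R * F.Del) ^ F.Bex → C ≤ ‖σ lam‖ →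
        Arr.FUnram.{u, v} F lam W ∧ F.FIndep lam W σ := by
  obtain ⟨C, -, h⟩ := exists_findep hWint hF
  exact ⟨exists_res hF.infty, fun R hR => ⟨C, fun mu lam hmu hlam hl =>
    ⟨fun L _ f T hT => fsym_mem_unramified hWint hWt hF hR hmu hlam f hT, h lam hl⟩⟩⟩

end Pool.Agent.Results.MP_a09a03_nt.PulledBackFibrationsH64
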