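import Pool.Agent.V7H50.SF.Reg
set_option autoImplicit false

/-!
Beilinson's conjecture on regulators in weight `dim X + 1`, for `i = dim X`: the fibre products of
`k + 1` fibrations `W_0(z_0) = G(x_1, ..., x_k)`, `W_1(z_1) = f_1(x_1)`, ..., `W_k(z_k) = f_k(x_k)`
over the affine space, with arbitrary monic integral polynomials `f_j` and arbitrary integral
polynomials `G` whose faces at infinity are products of polynomials of simplex type, over a number
field: unramified classes in Milnor K-theory, with regulators asymptotic to a nonzero multiple of
`log |c|` for `G + c`, `c → ∞`.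
-/

namespace Pool.Agent.Results.MP_a09a03_nt.SumFibrationsH50

open Pool.Agent.N65.TL Pool.Agent.N65.TE Pool.Agent.V7H50.SF

/-- Let `K` be a number field, `k ≥ 0`, and let `W_j`, `0 ≤ j ≤ k`, be Laurent polynomials over `K`
in the variables `z_j = (z_{j,0}, ..., z_{j,s_j})` with algebraic integers as coefficients, whose
Newton polytopes have the origin in the interior. For `j ≥ 1` the polynomials of all proper faces of
`W_j` are of simplex type (`∑_i ε_i z^{m_i}` with roots of unity `ε_i` and affinely independent
`m_i`; `SimplexFaces`; for example `z + 1/z + k`, `z_0 + z_1 + 1/(z_0 z_1) + k`, there is no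
condition on the coefficients in the interior besides integrality). Let `f_1, ..., f_k` be monic
polynomials of positive degree in one variable and `G` a polynomial in `x_1, ..., x_k`, all with
algebraic integers of `K` as coefficients. Suppose that for all weights `w ∈ ℕ^k`, `w ≠ 0`, the
weighted degree of `G` is positive, and that one of the following holds:

* the polynomials of all proper faces of `W_0` are of simplex type, and for all `w ≠ 0` the sum of
  the terms of `G` of the largest weight is a product of polynomials `T = ∑_i ε_i x^{m_i}` with
  roots of unity `ε_i` and affinely independent exponents `m_i` of the same weight, in which only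
  variables of positive weight occur (`ProductAtInfinity`);
* the polynomials of all proper faces of `W_0` are products of polynomials of simplex type
  (`ProductFaces`; for example `(z_0 + 1/z_0) (z_1 + 1/z_1)`), and for all `w ≠ 0` the sum of the
  terms of `G` of the largest weight is a power of such a polynomial `T` (`PowerAtInfinity`).

Examples of polynomials for both cases are `G = η_1 x_1^{e_1} + ... + η_k x_k^{e_k} + Q` with roots
of unity `η_j`, `e_j ≥ 1`, where `Q` is any integral polynomial with monomials `x^m`,
`∑_j m_j / e_j < 1`, and their powers; for the first case also all products of such polynomials.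

Let `X(G)` be the variety `W_0(z_0) = G(x)`, `W_j(z_j) = f_j(x_j)`, `z_{j,i} ≠ 0`, of dimension
`D = ∑_j (s_j + 1) - 1` (`e` numbers the `D + 1` variables `z_{j,i}`).

The symbol with all the entries `z_{j,i}`, `0 ≤ j ≤ k`, `0 ≤ i ≤ s_j`, in `K_{D+1}^M ⊗ ℚ` of the
coordinate ring of `X(G + c)` has, for all algebraic integers `c` of `K`, an unramified image in the
Milnor K-theory of all fields `L` with a homomorphism from the coordinate ring to `L` (for example
the function fields of the components).

For every embedding `σ` of `K` there is a real number `q ≠ 0` such that for all `ε > 0` and all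
`c ∈ K` with `|σ c| ≥ C(ε)` there is a torus `Γ` of dimension `D` in the complex points (over `σ`)
of `X(G + c)`, such that the quotient of the regulator of the symbol on `Γ` and of `log |σ c|`
differs from `q` by at most `ε`; in particular the regulator does not vanish for large `|σ c|`.

For `k = 1` and `G` monic this contains the result on fibre products of two fibrations over a
line; for `k = 0` (`G` constant) the equation is `W_0(z_0) = G`. -/
theorem result.{u, v} (k D : ℕ) (s : Fin (k + 1) → ℕ) (e : Fin (D + 1) ≃ Vars s) (K : Type u)
    [Field K] [NumberField K] (W : ∀ j, LP K (s j + 1))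
    (hW : ∀ j : Fin k, SimplexFaces (W j.succ)) (f : Fin k → Polynomial K)
    (hf : ∀ j, MonicInt (f j)) (G : MvPolynomial (Fin k) K)
    (hG : SimplexFaces (W 0) ∧ ProductAtInfinity G ∨ ProductFaces (W 0) ∧ PowerAtInfinity G) :
    (∀ c : K, IsIntegral ℤ c → Unram.{u, v} e W (sumF f (G + MvPolynomial.C c))) ∧
    ∀ σ : K →+* ℂ, ∃ q : ℝ, q ≠ 0 ∧ ∀ ε : ℝ, 0 < ε → ∃ C : ℝ, ∀ c : K, C ≤ ‖σ c‖ →
      HasReg e W (sumF f (G + MvPolynomial.C c)) σ (Real.log ‖σ c‖) q ε := by
  refine ⟨fun c hc => unram e hW hf ?_, fun σ => exists_reg e (fun j => ?_) hf G σ⟩
  · rcases hG with ⟨h, hG⟩ | ⟨h, hG⟩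
    · exact Or.inl ⟨h, hG.add_C hc⟩
    · exact Or.inr ⟨h, hG.add_C hc⟩
  · refine Fin.cases ?_ (fun j => (hW j).interior) j
    rcases hG with ⟨h, -⟩ | ⟨h, -⟩
    · exact h.interior
    · exact h.interior

end Pool.Agent.Results.MP_a09a03_nt.SumFibrationsH50
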